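import Pool.Agent.Helper50.Tm.Goals
import Mathlib

/-!
# Project TAME (MP_f619a5_ag): packet WEILS, the Weil restriction is formally smooth
-/

set_option autoImplicit false

open TensorProduct

namespace Pool.Agent.Helper4.Tm

variable {R S : Type} [CommRing R] [CommRing S] [Algebra R S]

/-- the map `S ⊗ C → S ⊗ C / I` -/
noncomputable abbrev q (S : Type) [CommRing S] [Algebra R S] {C : Type} [CommRing C] [Algebra R C]
    (I : Ideal C) : S ⊗[R] C →ₐ[S] S ⊗[R] (C ⧸ I) :=
  Algebra.TensorProduct.map (AlgHom.id S S) (Ideal.Quotient.mkₐ R I)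

theorem q_surj {C : Type} [CommRing C] [Algebra R C] (I : Ideal C) :
    Function.Surjective (q (R := R) S I) := by
  have h : Function.Surjective (Algebra.TensorProduct.map (AlgHom.id R S)
      (Ideal.Quotient.mkₐ R I)) :=
    Algebra.TensorProduct.map_surjective _ _ (fun x => ⟨x, rfl⟩) (Ideal.Quotient.mkₐ_surjective R I)
  exact h

theorem q_ker {C : Type} [CommRing C] [Algebra R C] (I : Ideal C) (hI : I ^ 2 = ⊥) :
    RingHom.ker (q (R := R) S I) ^ 2 = ⊥ := by
  have h : RingHom.ker (Algebra.TensorProduct.map (AlgHom.id R S) (Ideal.Quotient.mkₐ R I)) =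
      (RingHom.ker (Ideal.Quotient.mkₐ R I)).map
        (Algebra.TensorProduct.includeRight : C →ₐ[R] S ⊗[R] C) :=
    Algebra.TensorProduct.lTensor_ker _ (Ideal.Quotient.mkₐ_surjective R I)
  have h2 : RingHom.ker (q (R := R) S I) =
      RingHom.ker (Algebra.TensorProduct.map (AlgHom.id R S) (Ideal.Quotient.mkₐ R I)) := by
    ext x
    rfl
  have h3 : RingHom.ker (Ideal.Quotient.mkₐ R I) = I := Ideal.Quotient.mkₐ_ker R I
  rw [h2, h, h3, ← Ideal.map_pow, hI, Ideal.map_bot]

/-- packet WEILS -/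
theorem gWEILS : Pool.Agent.Helper50.Tm.WEILS := by
  intro R S B W _ _ _ _ _ _ _ _ _ _ u hu
  refine Algebra.FormallySmooth.of_comp_surjective ?_
  intro C _ _ I hI f
  -- the corresponding point of B
  have hs := q_surj (R := R) (S := S) I
  have hk := q_ker (R := R) (S := S) I hI
  let g : B →ₐ[S] S ⊗[R] (C ⧸ I) := (Algebra.TensorProduct.map (AlgHom.id S S) f).comp u
  let g' : B →ₐ[S] S ⊗[R] C := Algebra.FormallySmooth.liftOfSurjective g (q (R := R) S I) hs ⟨2, hk⟩
  have hg' : (q (R := R) S I).comp g' = g :=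
    Algebra.FormallySmooth.comp_liftOfSurjective g (q (R := R) S I) hs ⟨2, hk⟩
  obtain ⟨f', hf'⟩ := (hu C).2 g'
  refine ⟨f', ?_⟩
  refine (hu (C ⧸ I)).1 ?_
  show (Algebra.TensorProduct.map (AlgHom.id S S) ((Ideal.Quotient.mkₐ R I).comp f')).comp u = g
  rw [← hg', ← hf']
  have h3 : Algebra.TensorProduct.map (AlgHom.id S S) ((Ideal.Quotient.mkₐ R I).comp f') =
      (q (R := R) S I).comp (Algebra.TensorProduct.map (AlgHom.id S S) f') := by
    ext x
    rfl
  rw [h3]
  rfl

end Pool.Agent.Helper4.Tm
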